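import Pool.Agent.Helper48.ET.Pair
import Pool.Agent.Helper3.WA.Defs

/-! Project WA, piece WA-6: assembly over the levels (steps as hypotheses). -/

set_option autoImplicit false

namespace Pool.Agent.Helper40.WA

open Finset
open Pool.Agent.Helper48.ET
open Pool.Agent.Helper3.WT (rp GG P0)
open Pool.Agent.Helper3.WA

variable {p : ℕ} [Fact p.Prime]

/-- WA-6 (assembly over the levels; copy of `pair_lt0`, Helper40/WT/PairZero.lean) -/
theorem pair_assemble {C n' n M q' : ℕ} (hC : 8 ≤ C) (hev : Even C) (hlt : n' < n) (hnM : n ≤ M)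
    (θ' : Par p) (S : Par p → (ℕ → ZMod p) → (ℕ → ZMod p) → Set (ℕ → ZMod p))
    (hfin : ∀ θ t w, (S θ t w).Finite)
    (hshared : ∀ θ : Par p, θ'.lam + θ.lam ≠ 0 → ∀ (t w : ℕ → ZMod p) (i : ℕ),
      mm C (2 * n' + 1) (i + 1) = mm C (2 * n + 1) (i + 1) →
      mm C (2 * n' + 1) i = mm C (2 * n + 1) i →
      FB (S θ t w) (C ^ (i + 1) * mm C (2 * n + 1) (i + 1)) (C ^ i * mm C (2 * n + 1) i) 2)
    (hmerge : ∀ j, mm C (2 * n' + 1) (j + 2) = mm C (2 * n + 1) (j + 2) →
      mm C (2 * n' + 1) j = mm C (2 * n + 1) j →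
      ∃ Q : MvPolynomial (Option (ℕ × ℕ × ℕ)) (Om p), Q ≠ 0 ∧ Q.totalDegree ≤ Del C ∧
        ∀ θ : Par p, MvPolynomial.eval θ.val Q ≠ 0 → ∀ t w : ℕ → ZMod p,
          FB (S θ t w) (C ^ (j + 2) * mm C (2 * n + 1) (j + 2)) (C ^ j * mm C (2 * n + 1) j)
            (N0 C))
    (hfinal : ∀ e s, 1 ≤ e → 2 * n + 1 ≤ 2 * n' + 1 + C ^ e →
      2 * n' + 1 + C ^ (e - 1) < 2 * n + 1 → (s + 1 = e ∨ s = e) →
      mm C (2 * n' + 1) (s + 1) = mm C (2 * n + 1) (s + 1) →
      ∃ Q : MvPolynomial (Option (ℕ × ℕ × ℕ)) (Om p), Q ≠ 0 ∧ Q.totalDegree ≤ Del C ∧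
        ∀ θ : Par p, MvPolynomial.eval θ.val Q ≠ 0 → ∀ t w : ℕ → ZMod p,
          FB (S θ t w) (C ^ (s + 1) * mm C (2 * n + 1) (s + 1)) q' (N0 C)) :
    ∃ Q : MvPolynomial (Option (ℕ × ℕ × ℕ)) (Om p), Q ≠ 0 ∧ Q.totalDegree ≤ 2 * Del C + 1 ∧
      ∀ θ : Par p, MvPolynomial.eval θ.val Q ≠ 0 → ∀ t w : ℕ → ZMod p,
        (trunc q' '' S θ t w).ncard ≤ GG C M := by
  unfold GG
  obtain ⟨I, hI⟩ : ∃ I, I = Nat.log C M := ⟨_, rfl⟩
  rw [← hI]
  have hNI : n < C ^ (I + 1) := by
    rw [hI]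
    exact lt_of_le_of_lt hnM (Nat.lt_pow_succ_log_self (by omega) M)
  have hC0 : 0 < C := by omega
  have hC1 : 1 < C := by omega
  obtain ⟨κ', hκ'⟩ : ∃ κ', κ' = 2 * n' + 1 := ⟨_, rfl⟩
  obtain ⟨κ, hκ⟩ : ∃ κ, κ = 2 * n + 1 := ⟨_, rfl⟩
  rw [← hκ, ← hκ'] at hfinal
  rw [← hκ, ← hκ'] at hmerge
  rw [← hκ, ← hκ'] at hshared
  have hD : κ' + 1 < κ := by omega
  -- the scale `e` of the difference
  have hex : ∃ e, κ ≤ κ' + C ^ e := ⟨κ, by
    have := (Nat.lt_pow_self hC1 : κ < C ^ κ)
    omega⟩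
  classical
  obtain ⟨e, he⟩ : ∃ e, e = Nat.find hex := ⟨_, rfl⟩
  have he1 : κ ≤ κ' + C ^ e := he ▸ Nat.find_spec hex
  have hbe : 1 ≤ e := by
    by_contra hcon
    have h0 : e = 0 := by omega
    rw [h0, pow_zero] at he1
    omega
  have he2 : κ' + C ^ (e - 1) < κ := by
    have := Nat.find_min hex (m := e - 1) (by omega)
    omega
  obtain ⟨j0, hj0⟩ := one_change (C := C) (κ' := κ') (κ := κ) (e := e) (by omega) hev (by omega) he1
  -- vanishing above the top
  have htop : ∀ i, I < i → mm C κ i = 0 := fun i hi => by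
    rw [hκ]
    exact mm_top (b := 0) (by omega) (by omega) hNI hi
  have htop' : ∀ i, I < i → mm C κ' i = 0 := fun i hi => by
    rw [hκ']
    exact mm_top (b := 0) (by omega) (by omega) (lt_trans hlt hNI) hi
  have final : ∀ s, (s + 1 = e ∨ s = e) → mm C κ' (s + 1) = mm C κ (s + 1) →
      ∃ P : MvPolynomial (Option (ℕ × ℕ × ℕ)) (Om p), P ≠ 0 ∧ P.totalDegree ≤ Del C ∧
      ∀ θ : Par p, MvPolynomial.eval θ.val P ≠ 0 → ∀ t w : ℕ → ZMod p,
        FB (S θ t w) (C ^ (s + 1) * mm C κ (s + 1)) q' (N0 C) :=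
    fun s hs hms => hfinal e s hbe he1 he2 hs hms
  -- the polynomial controlling `lam`
  obtain ⟨P0, hP0, hP0d, hP0e⟩ := lam_poly (p := p) θ'
  have hNN := one_le_N0 C
  by_cases hgood : ∀ i, e ≤ i → mm C κ' i = mm C κ i
  · -- no change at the levels `≥ e`
    obtain ⟨P1, hP1, hP1d, hP1e⟩ := final (e - 1) (Or.inl (by omega))
      (by rw [show e - 1 + 1 = e by omega]; exact hgood e le_rfl)
    refine ⟨P0 * P1, mul_ne_zero hP0 hP1, ?_, ?_⟩
    · refine (MvPolynomial.totalDegree_mul _ _).trans ?_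
      omega
    · intro θ hθ t w
      rw [map_mul] at hθ
      have hl := hP0e θ (left_ne_zero_of_mul hθ)
      have hf := hP1e θ (right_ne_zero_of_mul hθ) t w
      rw [show e - 1 + 1 = e by omega] at hf
      have hSf : (S θ t w).Finite := hfin θ t w
      let q : ℕ → ℕ := fun i => C ^ i * mm C κ i
      obtain ⟨T, hT⟩ : ∃ T, T = max e (I + 1) := ⟨_, rfl⟩
      have hTe : e ≤ T := by omega
      have hqT : q T = 0 := by
        change C ^ T * mm C κ T = 0
        rw [htop T (by omega), mul_zero]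
      have hch := chain_two (S := S θ t w) hSf q hTe (fun i h1 _ =>
        hshared θ hl t w i (hgood _ (by omega)) (hgood _ h1))
      rw [hqT] at hch
      have hfi := chain_card hSf hf
      have h2 : 2 ^ (T - e) ≤ 2 ^ (I + 1) := Nat.pow_le_pow_right (by norm_num) (by omega)
      calc (trunc q' '' S θ t w).ncard ≤ N0 C * (trunc (q e) '' S θ t w).ncard := hfi
        _ ≤ N0 C * (2 ^ (T - e) * (trunc 0 '' S θ t w).ncard) := Nat.mul_le_mul_left _ hch
        _ ≤ N0 C * (2 ^ (I + 1) * 1) :=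
            Nat.mul_le_mul_left _ (Nat.mul_le_mul h2 (trunc_zero_card (S θ t w)))
        _ ≤ 2 ^ (I + 1) * N0 C ^ 2 := by
            rw [mul_one, mul_comm, pow_two]
            exact Nat.mul_le_mul_left _ (Nat.le_mul_of_pos_left _ hNN)
  · -- one change
    have hbad : e ≤ j0 ∧ mm C κ' j0 ≠ mm C κ j0 := by
      by_contra hcon
      apply hgood
      intro i hi
      by_cases h : i = j0
      · subst h
        by_contra h2
        exact hcon ⟨hi, h2⟩
      · exact hj0 i hi h
    have hj0I : j0 ≤ I := by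
      by_contra hcon
      exact hbad.2 ((htop' j0 (by omega)).trans (htop j0 (by omega)).symm)
    by_cases hje : j0 = e
    · -- the change is at level `e`
      subst hje
      obtain ⟨P1, hP1, hP1d, hP1e⟩ := final j0 (Or.inr rfl) (hj0 _ (by omega) (by omega))
      refine ⟨P0 * P1, mul_ne_zero hP0 hP1, ?_, ?_⟩
      · refine (MvPolynomial.totalDegree_mul _ _).trans ?_
        omega
      · intro θ hθ t w
        rw [map_mul] at hθ
        have hl := hP0e θ (left_ne_zero_of_mul hθ)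
        have hf := hP1e θ (right_ne_zero_of_mul hθ) t w
        have hSf : (S θ t w).Finite := hfin θ t w
        let q : ℕ → ℕ := fun i => C ^ i * mm C κ i
        have hqT : q (I + 1) = 0 := by
          change C ^ (I + 1) * mm C κ (I + 1) = 0
          rw [htop (I + 1) (by omega), mul_zero]
        have hch := chain_two (S := S θ t w) hSf q (lo := j0 + 1) (hi := I + 1) (by omega)
          (fun i h1 _ =>
            hshared θ hl t w i (hj0 _ (by omega) (by omega)) (hj0 _ (by omega) (by omega)))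
        rw [hqT] at hch
        have hfi := chain_card hSf hf
        have h2 : 2 ^ (I + 1 - (j0 + 1)) ≤ 2 ^ (I + 1) :=
          Nat.pow_le_pow_right (by norm_num) (by omega)
        calc (trunc q' '' S θ t w).ncard
            ≤ N0 C * (trunc (q (j0 + 1)) '' S θ t w).ncard := hfi
          _ ≤ N0 C * (2 ^ (I + 1 - (j0 + 1)) * (trunc 0 '' S θ t w).ncard) :=
              Nat.mul_le_mul_left _ hch
          _ ≤ N0 C * (2 ^ (I + 1) * 1) :=
              Nat.mul_le_mul_left _ (Nat.mul_le_mul h2 (trunc_zero_card (S θ t w)))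
          _ ≤ 2 ^ (I + 1) * N0 C ^ 2 := by
              rw [mul_one, mul_comm, pow_two]
              exact Nat.mul_le_mul_left _ (Nat.le_mul_of_pos_left _ hNN)
    · -- the change is above level `e`: merge step
      have hej : e + 1 ≤ j0 := by omega
      obtain ⟨P1, hP1, hP1d, hP1e⟩ := final (e - 1) (Or.inl (by omega))
        (by rw [show e - 1 + 1 = e by omega]; exact hj0 e le_rfl (by omega))
      obtain ⟨P2, hP2, hP2d, hP2e⟩ := hmerge (j0 - 1)
        (by
          rw [show j0 - 1 + 2 = j0 + 1 by omega]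
          exact hj0 _ (by omega) (by omega))
        (hj0 _ (by omega) (by omega))
      refine ⟨P0 * P1 * P2, mul_ne_zero (mul_ne_zero hP0 hP1) hP2, ?_, ?_⟩
      · refine (MvPolynomial.totalDegree_mul _ _).trans ?_
        have := MvPolynomial.totalDegree_mul P0 P1
        omega
      · intro θ hθ t w
        rw [map_mul, map_mul] at hθ
        have hl := hP0e θ (left_ne_zero_of_mul (left_ne_zero_of_mul hθ))
        have hf := hP1e θ (right_ne_zero_of_mul (left_ne_zero_of_mul hθ)) t w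
        have hm := hP2e θ (right_ne_zero_of_mul hθ) t w
        rw [show e - 1 + 1 = e by omega] at hf
        rw [show j0 - 1 + 2 = j0 + 1 by omega] at hm
        have hSf : (S θ t w).Finite := hfin θ t w
        let q : ℕ → ℕ := fun i => C ^ i * mm C κ i
        have hqT : q (I + 1) = 0 := by
          change C ^ (I + 1) * mm C κ (I + 1) = 0
          rw [htop (I + 1) (by omega), mul_zero]
        have hch1 := chain_two (S := S θ t w) hSf q (lo := j0 + 1) (hi := I + 1) (by omega)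
          (fun i h1 _ => hshared θ hl t w i (hj0 _ (by omega) (by omega))
            (hj0 _ (by omega) (by omega)))
        rw [hqT] at hch1
        have hmer := chain_card hSf hm
        have hch2 := chain_two (S := S θ t w) hSf q (lo := e) (hi := j0 - 1) (by omega)
          (fun i h1 h2 => hshared θ hl t w i (hj0 _ (by omega) (by omega))
            (hj0 _ (by omega) (by omega)))
        have hfi := chain_card hSf hf
        have h2 : 2 ^ (j0 - 1 - e) * 2 ^ (I + 1 - (j0 + 1)) ≤ 2 ^ (I + 1) := by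
          rw [← pow_add]
          exact Nat.pow_le_pow_right (by norm_num) (by omega)
        calc (trunc q' '' S θ t w).ncard ≤ N0 C * (trunc (q e) '' S θ t w).ncard := hfi
          _ ≤ N0 C * (2 ^ (j0 - 1 - e) * (trunc (q (j0 - 1)) '' S θ t w).ncard) :=
              Nat.mul_le_mul_left _ hch2
          _ ≤ N0 C * (2 ^ (j0 - 1 - e) * (N0 C * (trunc (q (j0 + 1)) '' S θ t w).ncard)) :=
              Nat.mul_le_mul_left _ (Nat.mul_le_mul_left _ hmer)
          _ ≤ N0 C * (2 ^ (j0 - 1 - e) * (N0 C * (2 ^ (I + 1 - (j0 + 1)) *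
                (trunc 0 '' S θ t w).ncard))) :=
              Nat.mul_le_mul_left _ (Nat.mul_le_mul_left _ (Nat.mul_le_mul_left _ hch1))
          _ ≤ N0 C * (2 ^ (j0 - 1 - e) * (N0 C * (2 ^ (I + 1 - (j0 + 1)) * 1))) :=
              Nat.mul_le_mul_left _ (Nat.mul_le_mul_left _ (Nat.mul_le_mul_left _
                (Nat.mul_le_mul_left _ (trunc_zero_card (S θ t w)))))
          _ = (2 ^ (j0 - 1 - e) * 2 ^ (I + 1 - (j0 + 1))) * N0 C ^ 2 := by ring
          _ ≤ 2 ^ (I + 1) * N0 C ^ 2 := Nat.mul_le_mul_right _ h2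

end Pool.Agent.Helper40.WA
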